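import Mathlib
import Pool.Agent.Helper82.PL.Defs

/-!
Packet Polar: the 4-Laplacian in logarithmic polar coordinates.
-/

set_option autoImplicit false

open MeasureTheory Set Filter Topology

namespace Pool.Agent.Helper74.PL

open Pool.Agent.Helper82.PL

/-- coordinate projections -/
noncomputable abbrev L0 : E2 →L[ℝ] ℝ := EuclideanSpace.proj (0 : Fin 2)
noncomputable abbrev L1 : E2 →L[ℝ] ℝ := EuclideanSpace.proj (1 : Fin 2)

theorem L0_apply (v : E2) : L0 v = v 0 := rfl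
theorem L1_apply (v : E2) : L1 v = v 1 := rfl

theorem nsq (p : E2) : ‖p‖ ^ 2 = p 0 ^ 2 + p 1 ^ 2 := by
  rw [EuclideanSpace.real_norm_sq_eq, Fin.sum_univ_two]

theorem n4 (p : E2) : ‖p‖ ^ 4 = (p 0 ^ 2 + p 1 ^ 2) ^ 2 := by
  rw [← nsq]; ring

theorem npos {p : E2} (hp : p 0 ≠ 0) : 0 < p 0 ^ 2 + p 1 ^ 2 := by
  have : 0 < p 0 ^ 2 := by positivity
  positivity

theorem tt_eq (p : E2) : tt p = -(1 / 2 * Real.log (p 0 ^ 2 + p 1 ^ 2)) := by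
  unfold tt
  rw [← nsq, Real.log_pow]
  push_cast
  ring

/-- the derivative in terms of components -/
noncomputable def lin (a c : ℝ) : E2 →L[ℝ] ℝ := a • L0 + c • L1

theorem lin_apply (a c : ℝ) (v : E2) : lin a c v = a * v 0 + c * v 1 := rfl

theorem hasFDerivAt_c0 (p : E2) : HasFDerivAt (fun p : E2 => p 0) (lin 1 0) p := by
  have : HasFDerivAt (fun p : E2 => p 0) L0 p := L0.hasFDerivAt
  convert this using 1
  ext v
  simp [lin_apply]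

theorem hasFDerivAt_c1 (p : E2) : HasFDerivAt (fun p : E2 => p 1) (lin 0 1) p := by
  have : HasFDerivAt (fun p : E2 => p 1) L1 p := L1.hasFDerivAt
  convert this using 1
  ext v
  simp [lin_apply]

theorem hasFDerivAt_N (p : E2) :
    HasFDerivAt (fun p : E2 => p 0 ^ 2 + p 1 ^ 2) (lin (2 * p 0) (2 * p 1)) p := by
  have h := ((hasFDerivAt_c0 p).mul (hasFDerivAt_c0 p)).add
    ((hasFDerivAt_c1 p).mul (hasFDerivAt_c1 p))
  have e : (fun p : E2 => p 0 ^ 2 + p 1 ^ 2) = fun p : E2 => p 0 * p 0 + p 1 * p 1 := by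
    funext q; ring
  rw [e]
  refine h.congr_fderiv ?_
  ext v
  simp [lin_apply]
  ring

theorem hasFDerivAt_tt {p : E2} (hp : p 0 ≠ 0) :
    HasFDerivAt tt (lin (-(p 0) / (p 0 ^ 2 + p 1 ^ 2)) (-(p 1) / (p 0 ^ 2 + p 1 ^ 2))) p := by
  have hN := npos hp
  have e : tt = fun p : E2 => -(1 / 2 * Real.log (p 0 ^ 2 + p 1 ^ 2)) := funext tt_eq
  rw [e]
  have h := (((hasFDerivAt_N p).log hN.ne').const_mul (1 / 2)).neg
  refine h.congr_fderiv ?_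
  ext v
  simp [lin_apply]
  field_simp
  ring

theorem hasFDerivAt_th {p : E2} (hp : p 0 ≠ 0) :
    HasFDerivAt th (lin (-(p 1) / (p 0 ^ 2 + p 1 ^ 2)) (p 0 / (p 0 ^ 2 + p 1 ^ 2))) p := by
  have hN := npos hp
  have h1 : HasFDerivAt (fun p : E2 => (p 0)⁻¹) (-(p 0 ^ 2)⁻¹ • lin 1 0) p :=
    (hasDerivAt_inv hp).comp_hasFDerivAt p (hasFDerivAt_c0 p)
  have h := ((hasFDerivAt_c1 p).mul h1).arctan
  have e : th = fun p : E2 => Real.arctan (p 1 * (p 0)⁻¹) := by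
    funext q; simp [th, div_eq_mul_inv]
  rw [e]
  refine h.congr_fderiv ?_
  ext v
  simp [lin_apply]
  field_simp

/-- chain rule in polar coordinates -/
theorem chain {f : ℝ → ℝ → ℝ} {fx ft : ℝ} {p : E2} (hp : p 0 ≠ 0)
    (hf : HasFDerivAt (fun q : ℝ × ℝ => f q.1 q.2)
      (fx • ContinuousLinearMap.fst ℝ ℝ ℝ + ft • ContinuousLinearMap.snd ℝ ℝ ℝ) (th p, tt p)) :
    HasFDerivAt (fun p => f (th p) (tt p))
      (lin ((-(p 1) * fx - p 0 * ft) / (p 0 ^ 2 + p 1 ^ 2))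
        ((p 0 * fx - p 1 * ft) / (p 0 ^ 2 + p 1 ^ 2))) p := by
  have h := hf.comp p ((hasFDerivAt_th hp).prodMk (hasFDerivAt_tt hp))
  refine h.congr_fderiv ?_
  ext v
  simp [lin_apply]
  ring

theorem gradient_eq {β : E2 → ℝ} {a c : ℝ} {p : E2} (h : HasFDerivAt β (lin a c) p) :
    gradient β p = WithLp.toLp 2 ![a, c] := by
  apply HasGradientAt.gradient
  rw [hasGradientAt_iff_hasFDerivAt]
  refine h.congr_fderiv ?_
  ext v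
  simp [lin_apply, PiLp.inner_apply, Fin.sum_univ_two]
  ring

theorem normsq_toLp (a c : ℝ) : ‖(WithLp.toLp 2 ![a, c] : E2)‖ ^ 2 = a ^ 2 + c ^ 2 := by
  rw [nsq]; simp

/-- C^1 from a continuous derivative -/
theorem contDiffOn_one {S : Set (ℝ × ℝ)} (hS : IsOpen S) {f fx ft : ℝ → ℝ → ℝ}
    (hf : ∀ p ∈ S, HasFDerivAt (fun q : ℝ × ℝ => f q.1 q.2)
      (fx p.1 p.2 • ContinuousLinearMap.fst ℝ ℝ ℝ + ft p.1 p.2 • ContinuousLinearMap.snd ℝ ℝ ℝ) p)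
    (hx : ContinuousOn (fun q : ℝ × ℝ => fx q.1 q.2) S)
    (ht : ContinuousOn (fun q : ℝ × ℝ => ft q.1 q.2) S) :
    ContDiffOn ℝ 1 (fun q : ℝ × ℝ => f q.1 q.2) S := by
  have h1 : (1 : WithTop ℕ∞) = 0 + 1 := by norm_num
  rw [h1, contDiffOn_succ_iff_fderiv_of_isOpen hS]
  refine ⟨fun p hp => (hf p hp).differentiableAt.differentiableWithinAt, by simp, ?_⟩
  rw [contDiffOn_zero]
  have hc : ContinuousOn (fun q : ℝ × ℝ => fx q.1 q.2 • ContinuousLinearMap.fst ℝ ℝ ℝ +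
      ft q.1 q.2 • ContinuousLinearMap.snd ℝ ℝ ℝ) S :=
    (hx.smul continuousOn_const).add (ht.smul continuousOn_const)
  exact hc.congr fun p hp => (hf p hp).fderiv

theorem contDiffAt_th {p : E2} (hp : p 0 ≠ 0) : ContDiffAt ℝ 1 th p := by
  have e : th = fun p : E2 => Real.arctan (p 1 * (p 0)⁻¹) := by
    funext q; simp [th, div_eq_mul_inv]
  rw [e]
  apply ContDiffAt.arctan
  exact (L1.contDiff.contDiffAt).mul ((L0.contDiff.contDiffAt).inv hp)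

theorem contDiffAt_tt {p : E2} (hp : p 0 ≠ 0) : ContDiffAt ℝ 1 tt p := by
  have e : tt = fun p : E2 => -(1 / 2 * Real.log (p 0 ^ 2 + p 1 ^ 2)) := funext tt_eq
  rw [e]
  have h2 : ContDiffAt ℝ 1 (fun p : E2 => p 0 ^ 2 + p 1 ^ 2) p :=
    ((L0.contDiff.contDiffAt).pow 2).add ((L1.contDiff.contDiffAt).pow 2)
  exact (contDiffAt_const.mul (h2.log (npos hp).ne')).neg

/-- the two polar components of the flux -/
def Pf (bx bt : ℝ → ℝ → ℝ) (x t : ℝ) : ℝ := (bx x t ^ 2 + bt x t ^ 2) * bx x t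
def Rf (bx bt : ℝ → ℝ → ℝ) (x t : ℝ) : ℝ := (bx x t ^ 2 + bt x t ^ 2) * bt x t

noncomputable def F0 (bx bt : ℝ → ℝ → ℝ) (p : E2) : ℝ :=
  (-(p 1) * Pf bx bt (th p) (tt p) - p 0 * Rf bx bt (th p) (tt p)) *
    ((p 0 ^ 2 + p 1 ^ 2)⁻¹ * (p 0 ^ 2 + p 1 ^ 2)⁻¹)
noncomputable def F1 (bx bt : ℝ → ℝ → ℝ) (p : E2) : ℝ :=
  (p 0 * Pf bx bt (th p) (tt p) - p 1 * Rf bx bt (th p) (tt p)) *
    ((p 0 ^ 2 + p 1 ^ 2)⁻¹ * (p 0 ^ 2 + p 1 ^ 2)⁻¹)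

theorem isOpen_U {S : Set (ℝ × ℝ)} (hS : IsOpen S) :
    IsOpen {p : E2 | p 0 ≠ 0 ∧ (th p, tt p) ∈ S} := by
  rw [isOpen_iff_mem_nhds]
  rintro p ⟨hp, hpS⟩
  have h0 : ∀ᶠ q : E2 in 𝓝 p, q 0 ≠ 0 :=
    (L0.continuous.continuousAt).eventually_ne hp
  have h1 : Tendsto (fun q : E2 => (th q, tt q)) (𝓝 p) (𝓝 (th p, tt p)) :=
    ((contDiffAt_th hp).continuousAt.prodMk (contDiffAt_tt hp).continuousAt)
  filter_upwards [h0, h1 (hS.mem_nhds hpS)] with q hq0 hqS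
  exact ⟨hq0, hqS⟩

theorem contDiffAt_comp {S : Set (ℝ × ℝ)} (hS : IsOpen S) {f : ℝ → ℝ → ℝ}
    (hf : ContDiffOn ℝ 1 (fun q : ℝ × ℝ => f q.1 q.2) S) {p : E2} (hp : p 0 ≠ 0)
    (hpS : (th p, tt p) ∈ S) : ContDiffAt ℝ 1 (fun p => f (th p) (tt p)) p :=
  ContDiffAt.comp (f := fun q : E2 => (th q, tt q)) p (hf.contDiffAt (hS.mem_nhds hpS))
    ((contDiffAt_th hp).prodMk (contDiffAt_tt hp))

theorem contDiffAt_Ninv {p : E2} (hp : p 0 ≠ 0) :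
    ContDiffAt ℝ 1 (fun p : E2 => (p 0 ^ 2 + p 1 ^ 2)⁻¹) p := by
  have h2 : ContDiffAt ℝ 1 (fun p : E2 => p 0 ^ 2 + p 1 ^ 2) p :=
    ((L0.contDiff.contDiffAt).pow 2).add ((L1.contDiff.contDiffAt).pow 2)
  exact h2.inv (npos hp).ne'

theorem flux_eq {S : Set (ℝ × ℝ)} {b bx bt bxx bxt btt : ℝ → ℝ → ℝ}
    (hJ : Jet S b bx bt bxx bxt btt) {p : E2} (hp : p 0 ≠ 0) (hpS : (th p, tt p) ∈ S) :
    flux (fun p => b (th p) (tt p)) p = WithLp.toLp 2 ![F0 bx bt p, F1 bx bt p] := by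
  have hg := gradient_eq (chain hp (hJ.d0 _ hpS))
  have hN := npos hp
  unfold flux
  rw [hg, normsq_toLp]
  have hN' := hN.ne'
  ext i
  fin_cases i
  · simp [F0, Pf, Rf]
    field_simp
    ring
  · simp [F1, Pf, Rf]
    field_simp
    ring

theorem hasFDerivAt_NN {p : E2} (hp : p 0 ≠ 0) :
    HasFDerivAt (fun p : E2 => (p 0 ^ 2 + p 1 ^ 2)⁻¹ * (p 0 ^ 2 + p 1 ^ 2)⁻¹)
      (lin (-4 * p 0 / (p 0 ^ 2 + p 1 ^ 2) ^ 3) (-4 * p 1 / (p 0 ^ 2 + p 1 ^ 2) ^ 3)) p := by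
  have hN := npos hp
  have h1 : HasFDerivAt (fun p : E2 => (p 0 ^ 2 + p 1 ^ 2)⁻¹)
      (-((p 0 ^ 2 + p 1 ^ 2) ^ 2)⁻¹ • lin (2 * p 0) (2 * p 1)) p :=
    (hasDerivAt_inv hN.ne').comp_hasFDerivAt p (hasFDerivAt_N p)
  refine (h1.mul h1).congr_fderiv ?_
  ext v
  simp [lin_apply]
  field_simp
  ring

theorem hasFDerivAt_F0 {bx bt : ℝ → ℝ → ℝ} {px pt rx rt : ℝ} {p : E2} (hp : p 0 ≠ 0)
    (hP : HasFDerivAt (fun q : ℝ × ℝ => Pf bx bt q.1 q.2)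
      (px • ContinuousLinearMap.fst ℝ ℝ ℝ + pt • ContinuousLinearMap.snd ℝ ℝ ℝ) (th p, tt p))
    (hR : HasFDerivAt (fun q : ℝ × ℝ => Rf bx bt q.1 q.2)
      (rx • ContinuousLinearMap.fst ℝ ℝ ℝ + rt • ContinuousLinearMap.snd ℝ ℝ ℝ) (th p, tt p)) :
    HasFDerivAt (F0 bx bt) (lin
      ((-(p 1) * ((-(p 1) * px - p 0 * pt) / (p 0 ^ 2 + p 1 ^ 2)) - Rf bx bt (th p) (tt p)
        - p 0 * ((-(p 1) * rx - p 0 * rt) / (p 0 ^ 2 + p 1 ^ 2))) /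
          (p 0 ^ 2 + p 1 ^ 2) ^ 2 +
        (-(p 1) * Pf bx bt (th p) (tt p) - p 0 * Rf bx bt (th p) (tt p)) *
          (-4 * p 0 / (p 0 ^ 2 + p 1 ^ 2) ^ 3))
      ((-(Pf bx bt (th p) (tt p)) - (p 1) * ((p 0 * px - p 1 * pt) / (p 0 ^ 2 + p 1 ^ 2))
        - p 0 * ((p 0 * rx - p 1 * rt) / (p 0 ^ 2 + p 1 ^ 2))) /
          (p 0 ^ 2 + p 1 ^ 2) ^ 2 +
        (-(p 1) * Pf bx bt (th p) (tt p) - p 0 * Rf bx bt (th p) (tt p)) *
          (-4 * p 1 / (p 0 ^ 2 + p 1 ^ 2) ^ 3))) p := by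
  have h := (((hasFDerivAt_c1 p).neg.mul (chain hp hP)).sub
    ((hasFDerivAt_c0 p).mul (chain hp hR))).mul (hasFDerivAt_NN hp)
  refine h.congr_fderiv ?_
  have hN := (npos hp).ne'
  ext v
  simp [lin_apply]
  field_simp
  ring

theorem hasFDerivAt_F1 {bx bt : ℝ → ℝ → ℝ} {px pt rx rt : ℝ} {p : E2} (hp : p 0 ≠ 0)
    (hP : HasFDerivAt (fun q : ℝ × ℝ => Pf bx bt q.1 q.2)
      (px • ContinuousLinearMap.fst ℝ ℝ ℝ + pt • ContinuousLinearMap.snd ℝ ℝ ℝ) (th p, tt p))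
    (hR : HasFDerivAt (fun q : ℝ × ℝ => Rf bx bt q.1 q.2)
      (rx • ContinuousLinearMap.fst ℝ ℝ ℝ + rt • ContinuousLinearMap.snd ℝ ℝ ℝ) (th p, tt p)) :
    HasFDerivAt (F1 bx bt) (lin
      ((Pf bx bt (th p) (tt p) + (p 0) * ((-(p 1) * px - p 0 * pt) / (p 0 ^ 2 + p 1 ^ 2))
        - p 1 * ((-(p 1) * rx - p 0 * rt) / (p 0 ^ 2 + p 1 ^ 2))) /
          (p 0 ^ 2 + p 1 ^ 2) ^ 2 +
        (p 0 * Pf bx bt (th p) (tt p) - p 1 * Rf bx bt (th p) (tt p)) *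
          (-4 * p 0 / (p 0 ^ 2 + p 1 ^ 2) ^ 3))
      ((p 0 * ((p 0 * px - p 1 * pt) / (p 0 ^ 2 + p 1 ^ 2)) - Rf bx bt (th p) (tt p)
        - p 1 * ((p 0 * rx - p 1 * rt) / (p 0 ^ 2 + p 1 ^ 2))) /
          (p 0 ^ 2 + p 1 ^ 2) ^ 2 +
        (p 0 * Pf bx bt (th p) (tt p) - p 1 * Rf bx bt (th p) (tt p)) *
          (-4 * p 1 / (p 0 ^ 2 + p 1 ^ 2) ^ 3))) p := by
  have h := (((hasFDerivAt_c0 p).mul (chain hp hP)).sub
    ((hasFDerivAt_c1 p).mul (chain hp hR))).mul (hasFDerivAt_NN hp)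
  refine h.congr_fderiv ?_
  have hN := (npos hp).ne'
  ext v
  simp [lin_apply]
  field_simp
  ring

theorem hasFDerivAt_Pf {S : Set (ℝ × ℝ)} {b bx bt bxx bxt btt : ℝ → ℝ → ℝ}
    (hJ : Jet S b bx bt bxx bxt btt) {q : ℝ × ℝ} (hq : q ∈ S) :
    HasFDerivAt (fun q : ℝ × ℝ => Pf bx bt q.1 q.2)
      (((2 * bx q.1 q.2 * bxx q.1 q.2 + 2 * bt q.1 q.2 * bxt q.1 q.2) * bx q.1 q.2 +
        (bx q.1 q.2 ^ 2 + bt q.1 q.2 ^ 2) * bxx q.1 q.2) • ContinuousLinearMap.fst ℝ ℝ ℝ +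
      ((2 * bx q.1 q.2 * bxt q.1 q.2 + 2 * bt q.1 q.2 * btt q.1 q.2) * bx q.1 q.2 +
        (bx q.1 q.2 ^ 2 + bt q.1 q.2 ^ 2) * bxt q.1 q.2) • ContinuousLinearMap.snd ℝ ℝ ℝ) q := by
  have h1 := hJ.d1 q hq
  have h2 := hJ.d2 q hq
  have e : (fun q : ℝ × ℝ => Pf bx bt q.1 q.2) =
      fun q : ℝ × ℝ => (bx q.1 q.2 * bx q.1 q.2 + bt q.1 q.2 * bt q.1 q.2) * bx q.1 q.2 := by
    funext r; simp only [Pf]; ring
  rw [e]
  refine (((h1.mul h1).add (h2.mul h2)).mul h1).congr_fderiv ?_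
  ext <;> simp <;> ring

theorem hasFDerivAt_Rf {S : Set (ℝ × ℝ)} {b bx bt bxx bxt btt : ℝ → ℝ → ℝ}
    (hJ : Jet S b bx bt bxx bxt btt) {q : ℝ × ℝ} (hq : q ∈ S) :
    HasFDerivAt (fun q : ℝ × ℝ => Rf bx bt q.1 q.2)
      (((2 * bx q.1 q.2 * bxx q.1 q.2 + 2 * bt q.1 q.2 * bxt q.1 q.2) * bt q.1 q.2 +
        (bx q.1 q.2 ^ 2 + bt q.1 q.2 ^ 2) * bxt q.1 q.2) • ContinuousLinearMap.fst ℝ ℝ ℝ +
      ((2 * bx q.1 q.2 * bxt q.1 q.2 + 2 * bt q.1 q.2 * btt q.1 q.2) * bt q.1 q.2 +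
        (bx q.1 q.2 ^ 2 + bt q.1 q.2 ^ 2) * btt q.1 q.2) • ContinuousLinearMap.snd ℝ ℝ ℝ) q := by
  have h1 := hJ.d1 q hq
  have h2 := hJ.d2 q hq
  have e : (fun q : ℝ × ℝ => Rf bx bt q.1 q.2) =
      fun q : ℝ × ℝ => (bx q.1 q.2 * bx q.1 q.2 + bt q.1 q.2 * bt q.1 q.2) * bt q.1 q.2 := by
    funext r; simp only [Rf]; ring
  rw [e]
  refine (((h1.mul h1).add (h2.mul h2)).mul h2).congr_fderiv ?_
  ext <;> simp <;> ring

theorem polar_ok : stmtPolar := by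
  intro S hS b bx bt bxx bxt btt hJ
  have cb : ContDiffOn ℝ 1 (fun q : ℝ × ℝ => bx q.1 q.2) S := contDiffOn_one hS hJ.d1 hJ.c0 hJ.c1
  have ct : ContDiffOn ℝ 1 (fun q : ℝ × ℝ => bt q.1 q.2) S := contDiffOn_one hS hJ.d2 hJ.c1 hJ.c2
  have cbb : ContDiffOn ℝ 1 (fun q : ℝ × ℝ => b q.1 q.2) S :=
    contDiffOn_one hS hJ.d0 cb.continuousOn ct.continuousOn
  have hU := isOpen_U hS
  refine ⟨hU, ?_, ?_, ?_⟩
  · rintro p ⟨hp, hpS⟩
    exact (contDiffAt_comp hS cbb hp hpS).contDiffWithinAt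
  · have key : ContDiffOn ℝ 1 (fun p : E2 => (WithLp.toLp 2 ![F0 bx bt p, F1 bx bt p] : E2))
        {p : E2 | p 0 ≠ 0 ∧ (th p, tt p) ∈ S} := by
      rintro p ⟨hp, hpS⟩
      apply ContDiffAt.contDiffWithinAt
      have hx := contDiffAt_comp hS cb hp hpS
      have ht := contDiffAt_comp hS ct hp hpS
      have hn := contDiffAt_Ninv hp
      have h0 : ContDiffAt ℝ 1 (fun p : E2 => p 0) p := L0.contDiff.contDiffAt
      have h1 : ContDiffAt ℝ 1 (fun p : E2 => p 1) p := L1.contDiff.contDiffAt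
      rw [contDiffAt_euclidean]
      intro i
      fin_cases i
      · show ContDiffAt ℝ 1 (F0 bx bt) p
        exact ((h1.neg.mul (((hx.pow 2).add (ht.pow 2)).mul hx)).sub
          (h0.mul (((hx.pow 2).add (ht.pow 2)).mul ht))).mul (hn.mul hn)
      · show ContDiffAt ℝ 1 (F1 bx bt) p
        exact ((h0.mul (((hx.pow 2).add (ht.pow 2)).mul hx)).sub
          (h1.mul (((hx.pow 2).add (ht.pow 2)).mul ht))).mul (hn.mul hn)
    exact key.congr fun p hp => flux_eq hJ hp.1 hp.2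
  · intro p hp hpS
    have hN := npos hp
    have hN' := hN.ne'
    have hg := gradient_eq (chain hp (hJ.d0 _ hpS))
    have hn2 : ‖gradient (fun p => b (th p) (tt p)) p‖ ^ 2 =
        (bx (th p) (tt p) ^ 2 + bt (th p) (tt p) ^ 2) / ‖p‖ ^ 2 := by
      rw [hg, normsq_toLp, nsq]
      field_simp
      ring
    refine ⟨hn2, ?_⟩
    have hF0 := hasFDerivAt_F0 hp (hasFDerivAt_Pf hJ hpS) (hasFDerivAt_Rf hJ hpS)
    have hF1 := hasFDerivAt_F1 hp (hasFDerivAt_Pf hJ hpS) (hasFDerivAt_Rf hJ hpS)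
    have hev : flux (fun p => b (th p) (tt p)) =ᶠ[𝓝 p]
        fun p : E2 => (WithLp.toLp 2 ![F0 bx bt p, F1 bx bt p] : E2) := by
      filter_upwards [hU.mem_nhds ⟨hp, hpS⟩] with q hq
      exact flux_eq hJ hq.1 hq.2
    have hdv : dv (flux (fun p => b (th p) (tt p))) p =
        fderiv ℝ (F0 bx bt) p e0 + fderiv ℝ (F1 bx bt) p e1 := by
      have hd : HasFDerivAt (fun p : E2 => (WithLp.toLp 2 ![F0 bx bt p, F1 bx bt p] : E2))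
          (fderiv ℝ (fun p : E2 => (WithLp.toLp 2 ![F0 bx bt p, F1 bx bt p] : E2)) p) p := by
        apply DifferentiableAt.hasFDerivAt
        rw [differentiableAt_euclidean]
        intro i
        fin_cases i
        · exact hF0.differentiableAt
        · exact hF1.differentiableAt
      have hd0 : HasFDerivAt (F0 bx bt) (L0.comp (fderiv ℝ
          (fun p : E2 => (WithLp.toLp 2 ![F0 bx bt p, F1 bx bt p] : E2)) p)) p :=
        L0.hasFDerivAt.comp p hd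
      have hd1 : HasFDerivAt (F1 bx bt) (L1.comp (fderiv ℝ
          (fun p : E2 => (WithLp.toLp 2 ![F0 bx bt p, F1 bx bt p] : E2)) p)) p :=
        L1.hasFDerivAt.comp p hd
      unfold dv
      rw [hev.fderiv_eq, hd0.fderiv, hd1.fderiv]
      rfl
    have h4 : ‖gradient (fun p => b (th p) (tt p)) p‖ ^ 4 =
        ((bx (th p) (tt p) ^ 2 + bt (th p) (tt p) ^ 2) / (p 0 ^ 2 + p 1 ^ 2)) ^ 2 := by
      rw [← nsq, ← hn2]; ring
    unfold LL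
    rw [hdv, hF0.fderiv, hF1.fderiv, h4, n4]
    simp only [lin_apply, e0, e1, Lpol, Pf, Rf]
    simp
    field_simp
    ring

end Pool.Agent.Helper74.PL
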